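import Pool.Agent.H65.CZF.TA

/-!
# EPB: the Euler factors at the small primes
-/

set_option autoImplicit false

open NumberField Complex Filter Topology MeasureTheory
open Pool.Agent.H65.CZF Pool.Agent.H33.HC Pool.Agent.H33.HH Pool.Agent.H28.RC Pool.Agent.H37.CV

namespace Pool.Agent.H16.CZF

theorem two_le_np {K : Type} [Field K] [NumberField K] (p : PrI K) : 2 ≤ np p := by
  unfold np nm
  have h1 : 1 < Ideal.absNorm p.1 := by
    have h2 : Ideal.absNorm p.1 ≠ 0 := by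
      rw [Ne, Ideal.absNorm_eq_zero_iff]
      exact p.2.2
    have h3 : Ideal.absNorm p.1 ≠ 1 := by
      rw [Ne, Ideal.absNorm_eq_one_iff]
      exact p.2.1.ne_top
    omega
  have h4 : 2 ≤ Ideal.absNorm p.1 := h1
  exact_mod_cast h4

/-- the difference of two products -/
theorem prod_diff {α : Type*} (T : Finset α) (a b : α → ℂ) (L : α → ℝ) (d : ℝ) (hd : 0 ≤ d)
    (hL : ∀ i ∈ T, 0 ≤ L i) (ha : ∀ i ∈ T, ‖a i‖ ≤ 2) (hb : ∀ i ∈ T, ‖b i‖ ≤ 2)
    (hab : ∀ i ∈ T, ‖a i - b i‖ ≤ L i * d) :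
    ‖∏ i ∈ T, b i‖ ≤ 2 ^ T.card ∧
      ‖∏ i ∈ T, a i - ∏ i ∈ T, b i‖ ≤ 2 ^ T.card * (∑ i ∈ T, L i) * d := by
  classical
  induction T using Finset.induction_on with
  | empty => simp
  | insert j T hj ih =>
    obtain ⟨h1, h2⟩ := ih (fun i hi => hL i (Finset.mem_insert_of_mem hi))
      (fun i hi => ha i (Finset.mem_insert_of_mem hi))
      (fun i hi => hb i (Finset.mem_insert_of_mem hi))
      (fun i hi => hab i (Finset.mem_insert_of_mem hi))
    have hLj := hL j (Finset.mem_insert_self _ _)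
    have haj := ha j (Finset.mem_insert_self _ _)
    have hbj := hb j (Finset.mem_insert_self _ _)
    have habj := hab j (Finset.mem_insert_self _ _)
    have hS : 0 ≤ ∑ i ∈ T, L i := Finset.sum_nonneg fun i hi => hL i (Finset.mem_insert_of_mem hi)
    rw [Finset.prod_insert hj, Finset.prod_insert hj, Finset.sum_insert hj,
      Finset.card_insert_of_notMem hj]
    have hp : (0 : ℝ) < 2 ^ T.card := by positivity
    constructor
    · rw [norm_mul, pow_succ]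
      calc ‖b j‖ * ‖∏ i ∈ T, b i‖ ≤ 2 * 2 ^ T.card :=
            mul_le_mul hbj h1 (norm_nonneg _) (by norm_num)
        _ = _ := by ring
    · have h3 : a j * ∏ i ∈ T, a i - b j * ∏ i ∈ T, b i =
          a j * (∏ i ∈ T, a i - ∏ i ∈ T, b i) + (a j - b j) * ∏ i ∈ T, b i := by ring
      rw [h3]
      refine (norm_add_le _ _).trans ?_
      rw [norm_mul, norm_mul]
      have h4 : ‖a j‖ * ‖∏ i ∈ T, a i - ∏ i ∈ T, b i‖ ≤ 2 * (2 ^ T.card * (∑ i ∈ T, L i) * d) :=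
        mul_le_mul haj h2 (norm_nonneg _) (by norm_num)
      have h5 : ‖a j - b j‖ * ‖∏ i ∈ T, b i‖ ≤ L j * d * 2 ^ T.card :=
        mul_le_mul habj h1 (norm_nonneg _) (mul_nonneg hLj hd)
      have h6 : 0 ≤ L j * d * 2 ^ T.card := mul_nonneg (mul_nonneg hLj hd) hp.le
      calc _ ≤ 2 * (2 ^ T.card * (∑ i ∈ T, L i) * d) + L j * d * 2 ^ T.card := add_le_add h4 h5
        _ ≤ 2 * (2 ^ T.card * (∑ i ∈ T, L i) * d) + 2 * (L j * d * 2 ^ T.card) := by linarith
        _ = _ := by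
          rw [pow_succ]
          ring

/-- powers of a number at least `1` -/
theorem cpow_lip (N : ℝ) (hN : 1 ≤ N) (s s' : ℂ) (hs : 0 ≤ s.re) (hs' : 0 ≤ s'.re) :
    ‖((N : ℝ) : ℂ) ^ (-s) - ((N : ℝ) : ℂ) ^ (-s')‖ ≤ Real.log N * ‖s - s'‖ := by
  have hN0 : (0 : ℝ) < N := by linarith
  have hNc : ((N : ℝ) : ℂ) ≠ 0 := by exact_mod_cast hN0.ne'
  have hder : ∀ z : ℂ, HasDerivAt (fun z : ℂ => ((N : ℝ) : ℂ) ^ (-z))
      (((N : ℝ) : ℂ) ^ (-z) * Complex.log ((N : ℝ) : ℂ) * (-1)) z := by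
    intro z
    exact (hasDerivAt_neg z).const_cpow (Or.inl hNc)
  have hconv : Convex ℝ {z : ℂ | 0 ≤ z.re} := convex_halfSpace_re_ge 0
  have hbd : ∀ z ∈ {z : ℂ | 0 ≤ z.re},
      ‖((N : ℝ) : ℂ) ^ (-z) * Complex.log ((N : ℝ) : ℂ) * (-1)‖ ≤ Real.log N := by
    intro z hz
    have hz' : 0 ≤ z.re := hz
    rw [norm_mul, norm_mul, norm_neg, norm_one, mul_one,
      Complex.norm_cpow_eq_rpow_re_of_pos hN0, ← Complex.ofReal_log hN0.le, Complex.norm_real,
      Real.norm_eq_abs, abs_of_nonneg (Real.log_nonneg hN)]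
    have h1 : N ^ (-z).re ≤ 1 := by
      apply Real.rpow_le_one_of_one_le_of_nonpos hN
      rw [Complex.neg_re]
      linarith
    calc N ^ (-z).re * Real.log N ≤ 1 * Real.log N :=
          mul_le_mul_of_nonneg_right h1 (Real.log_nonneg hN)
      _ = _ := one_mul _
  exact hconv.norm_image_sub_le_of_norm_hasDerivWithin_le
    (fun z _ => (hder z).hasDerivWithinAt) hbd hs' hs

theorem pf_EPB (_h1 : Pool.Agent.H33.HH.T_NRM) : T_EPB := by
  intro K _ _ _ P
  obtain ⟨n, hn⟩ : ∃ n : ℕ, n = (SP K P).card := ⟨_, rfl⟩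
  obtain ⟨r, hr⟩ : ∃ r : ℝ, r = (2 : ℝ) ^ (-(1 / 4) : ℝ) := ⟨_, rfl⟩
  have hr1 : r < 1 := by
    rw [hr]
    exact Real.rpow_lt_one_of_one_lt_of_neg (by norm_num) (by norm_num)
  have hr0 : 0 < r := by
    rw [hr]
    positivity
  obtain ⟨S, hS⟩ : ∃ S : ℝ, S = ∑ p ∈ SP K P, Real.log (np p) := ⟨_, rfl⟩
  have hlog : ∀ p : PrI K, 0 ≤ Real.log (np p) := fun p =>
    Real.log_nonneg (by linarith [two_le_np p])
  have hS0 : 0 ≤ S := by
    rw [hS]
    exact Finset.sum_nonneg fun p _ => hlog p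
  refine ⟨(1 - r) ^ n, 2 ^ n * (1 + S), pow_pos (by linarith) n, by positivity, ?_⟩
  intro ψ hψ
  have hnp0 : ∀ p : PrI K, ((np p : ℝ) : ℂ) ≠ 0 := by
    intro p
    have := two_le_np p
    have h2 : (np p : ℝ) ≠ 0 := by linarith
    exact_mod_cast h2
  have hpw : ∀ (p : PrI K) (s : ℂ), 1 / 4 ≤ s.re → ‖((np p : ℝ) : ℂ) ^ (-s)‖ ≤ r := by
    intro p s hs
    have h2 := two_le_np p
    rw [Complex.norm_cpow_eq_rpow_re_of_pos (by linarith : (0 : ℝ) < np p), Complex.neg_re, hr]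
    calc (np p) ^ (-s.re) ≤ (np p) ^ (-(1 / 4) : ℝ) :=
          Real.rpow_le_rpow_of_exponent_le (by linarith) (by linarith)
      _ ≤ (2 : ℝ) ^ (-(1 / 4) : ℝ) :=
          Real.rpow_le_rpow_of_nonpos (by norm_num) h2 (by norm_num)
  have hterm : ∀ (p : PrI K) (s : ℂ), 1 / 4 ≤ s.re →
      ‖ψ p.1 * ((np p : ℝ) : ℂ) ^ (-s)‖ ≤ r := by
    intro p s hs
    rw [norm_mul]
    calc ‖ψ p.1‖ * ‖((np p : ℝ) : ℂ) ^ (-s)‖ ≤ 1 * r :=
          mul_le_mul (hψ _) (hpw p s hs) (norm_nonneg _) (by norm_num)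
      _ = r := one_mul r
  have hup : ∀ (p : PrI K) (s : ℂ), 1 / 4 ≤ s.re →
      ‖1 - ψ p.1 * ((np p : ℝ) : ℂ) ^ (-s)‖ ≤ 2 := by
    intro p s hs
    have h3 := norm_sub_le (1 : ℂ) (ψ p.1 * ((np p : ℝ) : ℂ) ^ (-s))
    rw [norm_one] at h3
    linarith [hterm p s hs]
  have hlo : ∀ (p : PrI K) (s : ℂ), 1 / 4 ≤ s.re →
      1 - r ≤ ‖1 - ψ p.1 * ((np p : ℝ) : ℂ) ^ (-s)‖ := by
    intro p s hs
    have h3 := norm_sub_norm_le (1 : ℂ) (ψ p.1 * ((np p : ℝ) : ℂ) ^ (-s))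
    rw [norm_one] at h3
    linarith [hterm p s hs]
  refine ⟨?_, ?_, ?_⟩
  · unfold EP
    apply Differentiable.fun_finsetProd
    intro p _
    apply Differentiable.const_sub
    apply Differentiable.const_mul
    exact differentiable_id.neg.const_cpow (Or.inl (hnp0 p))
  · intro y
    unfold mlz
    apply Differentiable.fun_sum
    intro T _
    apply Differentiable.const_mul
    apply differentiable_id.neg.const_cpow (Or.inl _)
    have h2 : nS np T ≠ 0 := by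
      unfold nS
      rw [Finset.prod_ne_zero_iff]
      intro p _
      linarith [two_le_np p]
    exact_mod_cast h2
  · intro s s' hs hs'
    have h3 := prod_diff (SP K P) (fun p => 1 - ψ p.1 * ((np p : ℝ) : ℂ) ^ (-s))
      (fun p => 1 - ψ p.1 * ((np p : ℝ) : ℂ) ^ (-s')) (fun p => Real.log (np p)) ‖s - s'‖
      (norm_nonneg _) (fun p _ => hlog p) (fun p _ => hup p s hs) (fun p _ => hup p s' hs')
      (fun p _ => by
        have h4 : (1 - ψ p.1 * ((np p : ℝ) : ℂ) ^ (-s)) - (1 - ψ p.1 * ((np p : ℝ) : ℂ) ^ (-s')) =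
            -(ψ p.1 * (((np p : ℝ) : ℂ) ^ (-s) - ((np p : ℝ) : ℂ) ^ (-s'))) := by ring
        rw [h4, norm_neg, norm_mul]
        have h5 := cpow_lip (np p) (by linarith [two_le_np p]) s s' (by linarith) (by linarith)
        calc ‖ψ p.1‖ * ‖((np p : ℝ) : ℂ) ^ (-s) - ((np p : ℝ) : ℂ) ^ (-s')‖ ≤
            1 * (Real.log (np p) * ‖s - s'‖) :=
              mul_le_mul (hψ _) h5 (norm_nonneg _) (by norm_num)
          _ = _ := one_mul _)
    have h6 := prod_diff (SP K P) (fun p => 1 - ψ p.1 * ((np p : ℝ) : ℂ) ^ (-s))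
      (fun p => 1 - ψ p.1 * ((np p : ℝ) : ℂ) ^ (-s)) (fun p => Real.log (np p)) 0
      le_rfl (fun p _ => hlog p) (fun p _ => hup p s hs) (fun p _ => hup p s hs)
      (fun p _ => by simp)
    have hp2 : (0 : ℝ) < 2 ^ n := by positivity
    refine ⟨?_, ?_, ?_⟩
    · unfold EP
      rw [Complex.norm_prod, hn, ← Finset.prod_const]
      apply Finset.prod_le_prod
      · intro p _
        linarith
      · intro p _
        exact hlo p s hs
    · unfold EP
      refine h6.1.trans ?_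
      rw [← hn]
      nlinarith
    · unfold EP
      refine h3.2.trans ?_
      rw [← hn, ← hS]
      apply mul_le_mul_of_nonneg_right _ (norm_nonneg _)
      apply mul_le_mul_of_nonneg_left _ hp2.le
      linarith

end Pool.Agent.H16.CZF
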