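import Pool.Agent.H65.CZF.TA

/-!
# FAM: the family as a finite set with weights
-/

set_option autoImplicit false

open NumberField Complex Filter Topology MeasureTheory
open Pool.Agent.H65.CZF Pool.Agent.H33.HC Pool.Agent.H33.HH Pool.Agent.H28.RC Pool.Agent.H37.CV

namespace Pool.Agent.H16.CZF

theorem fin_NI {K : Type} [Field K] [NumberField K] (c : ℝ) : {l : NI K | nm l.1 < c}.Finite := by
  have h1 := Ideal.finite_setOfPred_absNorm_le (S := 𝓞 K) ⌊c⌋₊
  refine Set.Finite.of_finite_image (f := fun l : NI K => l.1) (h1.subset ?_)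
    (Subtype.val_injective.injOn)
  rintro I ⟨l, hl, rfl⟩
  refine Nat.le_floor ?_
  exact le_of_lt hl

theorem nm_mul {K : Type} [Field K] [NumberField K] (I J : Ideal (𝓞 K)) :
    nm (I * J) = nm I * nm J := by
  unfold nm
  rw [map_mul]
  push_cast
  rfl

theorem nm_pos {K : Type} [Field K] [NumberField K] (I : Ideal (𝓞 K)) (h : I ≠ ⊥) :
    0 < nm I := by
  unfold nm
  have h2 : Ideal.absNorm I ≠ 0 := by
    rw [Ne, Ideal.absNorm_eq_zero_iff]
    exact h
  exact_mod_cast Nat.pos_of_ne_zero h2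

theorem pf_FAM (h1 : Pool.Agent.H33.HH.T_IEX) (h2 : Pool.Agent.H33.HH.T_NRM) : T_FAM := by
  classical
  intro K _ _ _ P W k hW hk
  have : IsTotallyComplex K := (h2 K).1
  obtain ⟨δ, hδ, hlow⟩ := hW.low
  have hk0 : k ≠ ⊥ := hk.1
  have hnk := nm_pos k hk0
  have hfin : ∀ q : Ideal (𝓞 K), q ≠ ⊥ → (Pr K (k * q)).Finite := fun q hq =>
    (h1 K (k * q) (mul_ne_zero hk0 hq)).1
  refine ⟨δ * nm k, max 1 (2 / (δ * nm k)), by positivity, le_max_left _ _, ?_⟩
  intro Q hQ
  have hQ1 : 1 ≤ Q := (le_max_left _ _).trans hQ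
  have hQ2 : 2 / (δ * nm k) ≤ Q := (le_max_right _ _).trans hQ
  have hQ0 : 0 < Q := by linarith
  -- the ideals in the support
  have hA : {q : NI K | Cp P q.1 ∧ W (nm q.1 / Q) ≠ 0}.Finite := by
    refine (fin_NI (K := K) Q).subset fun q hq => ?_
    by_contra hcon
    apply hq.2
    apply hW.high
    rw [le_div_iff₀ hQ0, one_mul]
    exact not_lt.mp hcon
  obtain ⟨S, hS⟩ : ∃ S : Finset (NI K), S = hA.toFinset := ⟨_, rfl⟩
  have hmemS : ∀ q : NI K, q ∈ S ↔ Cp P q.1 ∧ W (nm q.1 / Q) ≠ 0 := by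
    intro q
    rw [hS, Set.Finite.mem_toFinset]
    rfl
  obtain ⟨B, hB⟩ : ∃ B : NI K → Finset (RCC K), ∀ (q : NI K) (χ : RCC K),
      χ ∈ B q ↔ χ.f = k * q.1 := by
    refine ⟨fun q => (hfin q.1 q.2).toFinset, fun q χ => ?_⟩
    rw [Set.Finite.mem_toFinset]
    rfl
  have hsumB : ∀ (q : NI K) (F : RCC K → ℝ), ∑ᶠ χ ∈ Pr K (k * q.1), F χ = ∑ χ ∈ B q, F χ := by
    intro q F
    rw [finsum_mem_eq_finite_toFinset_sum F (hfin q.1 q.2)]
    apply Finset.sum_congr _ (fun _ _ => rfl)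
    ext χ
    rw [Set.Finite.mem_toFinset, hB q χ]
    rfl
  have hdisj : Set.PairwiseDisjoint (S : Set (NI K)) B := by
    intro q _ q' _ hqq'
    rw [Function.onFun, Finset.disjoint_left]
    intro χ hχ hχ'
    rw [hB] at hχ hχ'
    apply hqq'
    apply Subtype.ext
    rw [hχ] at hχ'
    exact mul_left_cancel₀ hk0 hχ'
  obtain ⟨T, hT⟩ : ∃ T : Finset (RCC K), T = S.biUnion B := ⟨_, rfl⟩
  -- the formula
  have hform : ∀ F : RCC K → ℝ, FW P Q W k F = ∑ χ ∈ T, W (nm χ.f / nm k / Q) * F χ := by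
    intro F
    unfold FW sumC
    rw [tsum_eq_sum (s := S), hT, Finset.sum_biUnion hdisj]
    · apply Finset.sum_congr rfl
      intro q hq
      rw [if_pos ((hmemS q).mp hq).1]
      beta_reduce
      rw [hsumB q F, Finset.mul_sum]
      apply Finset.sum_congr rfl
      intro χ hχ
      rw [(hB q χ).mp hχ, nm_mul, mul_div_cancel_left₀ _ hnk.ne']
    · intro q hq
      by_cases hc : Cp P q.1
      · rw [if_pos hc]
        have : W (nm q.1 / Q) = 0 := by
          by_contra h3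
          exact hq ((hmemS q).mpr ⟨hc, h3⟩)
        beta_reduce
        rw [this, zero_mul]
      · rw [if_neg hc]
  have hM0 : M0 P Q W k = FW P Q W k (fun _ => 1) := by
    unfold M0 FW sumC
    apply tsum_congr
    intro q
    by_cases hc : Cp P q.1
    · rw [if_pos hc, if_pos hc]
      beta_reduce
      rw [hsumB q (fun _ => 1), Finset.sum_const, nsmul_eq_mul, mul_one]
      congr 2
      rw [Set.ncard_eq_toFinset_card _ (hfin q.1 q.2)]
      congr 1
      ext χ
      rw [Set.Finite.mem_toFinset, hB q χ]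
      rfl
    · rw [if_neg hc, if_neg hc]
  -- the bounds
  have hbd : ∀ χ ∈ T, χ.f ≠ ⊤ ∧ δ * nm k * Q ≤ nm χ.f ∧ nm χ.f ≤ nm k * Q ∧
      ∃ q : Ideal (𝓞 K), q ≠ ⊥ ∧ Cp P q ∧ χ.f = k * q := by
    intro χ hχ
    rw [hT, Finset.mem_biUnion] at hχ
    obtain ⟨q, hq, hχq⟩ := hχ
    rw [hB] at hχq
    obtain ⟨hc, hw⟩ := (hmemS q).mp hq
    have hlo : δ < nm q.1 / Q := by
      by_contra h3
      exact hw (hlow _ (not_lt.mp h3))
    have hhi : nm q.1 / Q < 1 := by
      by_contra h3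
      exact hw (hW.high _ (not_lt.mp h3))
    rw [lt_div_iff₀ hQ0] at hlo
    rw [div_lt_one hQ0] at hhi
    have hn1 : δ * nm k * Q ≤ nm χ.f := by
      rw [hχq, nm_mul]
      calc δ * nm k * Q = nm k * (δ * Q) := by ring
        _ ≤ _ := mul_le_mul_of_nonneg_left hlo.le hnk.le
    refine ⟨?_, hn1, ?_, q.1, q.2, hc, hχq⟩
    · intro htop
      rw [htop] at hn1
      have h3 : nm (⊤ : Ideal (𝓞 K)) = 1 := by
        unfold nm
        rw [Ideal.absNorm_top]
        simp
      rw [h3] at hn1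
      rw [div_le_iff₀ (by positivity)] at hQ2
      linarith
    · rw [hχq, nm_mul]
      exact mul_le_mul_of_nonneg_left hhi.le hnk.le
  constructor
  · intro F F' hFF'
    rw [hform, hform]
    apply Finset.sum_le_sum
    intro χ hχ
    obtain ⟨hb1, hb2, hb3, _⟩ := hbd χ hχ
    exact mul_le_mul_of_nonneg_left (hFF' χ hb1 hb2 hb3) (hW.bd _).1
  · refine ⟨{χ : RCC K // χ ∈ T}, inferInstance, fun i => W (nm i.1.f / nm k / Q), fun i => i.1,
      Subtype.val_injective, ?_, ?_, ?_⟩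
    · intro i
      obtain ⟨hb1, hb2, hb3, hb4⟩ := hbd i.1 i.2
      exact ⟨(hW.bd _).1, (hW.bd _).2, hb1, hb2, hb3, hb4⟩
    · rw [hM0, hform]
      rw [Finset.sum_coe_sort T (fun χ => W (nm χ.f / nm k / Q))]
      apply Finset.sum_congr rfl
      intro χ _
      rw [mul_one]
    · intro F
      rw [hform]
      exact (Finset.sum_coe_sort T (fun χ => W (nm χ.f / nm k / Q) * F χ)).symm

end Pool.Agent.H16.CZF
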